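import Pool.Agent.J4.H33.CS.Res2

/-!
# Many large central values in almost all cosets of all subgroups of order at least `c q ^ ε`

For every `ε > 0`, `c₁ > 0`, `δ > 0` and every large prime `q` (no exceptional primes), every
subgroup `H` of the group of the `q - 1` Dirichlet characters modulo `q` with `#H ≥ c₁ q ^ ε` and
every `y` between a power of `log q` and `exp (c (log q) ^ (1/3))`: for all `χ₀` except at most
`(q - 1) y ^ (-c)` of the `q - 1` characters the coset `χ₀ H` has at least `q ^ (-δ) #H` members `χ`
with `|L(χ, 1/2)| ≥ exp (c sqrt (log q / log y))`.  The set of the exceptional `χ₀` is a union of cosets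
of `H`, so the proportion of the exceptional cosets is at most `y ^ (-c)`.  With `y` a fixed large power
of `log q` the exponent is a constant times `sqrt (log q / log log q)` and the exceptional proportion is
at most `(log q) ^ (-A)`, any `A`.

Idea of the proof.  Let `A` be the annihilator of `H` in `(ZMod q)ˣ`.  Its order can be as large as
`q ^ (1 - ε)`, and small numbers in `A` or in a common coset of `A` spoil a resonator; there may be many
of them.  We use only a short block `P` of primes in `(y, y ^ (1 + ε/4)]`: if many
products of `a` primes of `P` were in one coset of `A`, then their `r`-fold products, which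
are below `q` and have few representations, would be too many elements of one coset
of `A`; so they are few in every coset (`C1`, `C2`, `Z`).  The primes outside of `P` are removed by a
mollifier `G` of length `q ^ (ε/16)`.  The mean over the coset `χ₀ H` of
`L(χ, 1/2) G(χ) P(χ) ^ j conj (P(χ)) ^ n`, with `P(χ) = ∑ p ∈ P, χ(p) p ^ (-1/2)`, is the diagonal term
`M` up to an error whose mean square over `χ₀` is at most `M ^ 2 y ^ (-c)` (the Hurwitz zeta
expansion of `L(χ, 1/2)`, the orthogonality relations and the rarity above).  The members of the coset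
with `|L(χ, 1/2)| ≤ V` contribute at most `V` times the mean of `|G P ^ (j + n)|`, whose
mean over `χ₀` is small against `M / V`; the others, if they are fewer than `q ^ (-δ) #H`, contribute
little by the Cauchy-Schwarz inequality and a crude bound for the mollified second moment (`Eng`).  So
few `χ₀` are exceptional (`bad_count2`).

The pieces in `Pool.Agent.J4.H33.CS` are by helper7, helper71, helper52, helper95, helper24, helper35,
helper14, helper4 and helper33.
-/

set_option autoImplicit false

namespace Pool.Agent.Results.MP_3e6494_nt.AlmostAllCosetsMany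

/-- **Many large central values in almost all cosets of every subgroup with `#H ≥ c₁ q ^ ε`.** -/
theorem result (ε : ℝ) (hε : 0 < ε) (c₁ : ℝ) (hc₁ : 0 < c₁) (δ : ℝ) (hδ : 0 < δ) :
    ∃ c : ℝ, 0 < c ∧ ∃ C : ℝ, ∃ q₀ : ℕ, ∀ (q : ℕ) [Fact q.Prime], q₀ ≤ q →
      ∀ H : Subgroup (DirichletCharacter ℂ q), c₁ * (q : ℝ) ^ ε ≤ Nat.card H →
      ∀ y : ℝ, Real.log q ^ C ≤ y → Real.log y ≤ c * Real.log q ^ ((1 : ℝ) / 3) →
        (Set.ncard {χ₀ : DirichletCharacter ℂ q |
          (Set.ncard {ψ : DirichletCharacter ℂ q | ψ ∈ H ∧
            Real.exp (c * Real.sqrt (Real.log q / Real.log y)) ≤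
              ‖DirichletCharacter.LFunction (χ₀ * ψ) (1 / 2)‖} : ℝ) <
            (q : ℝ) ^ (-δ) * Nat.card H} : ℝ) ≤ ((q : ℝ) - 1) * y ^ (-c) :=
  J4.H33.CS.partA2 ε hε c₁ hc₁ δ hδ

end Pool.Agent.Results.MP_3e6494_nt.AlmostAllCosetsMany
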