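import Mathlib
import Pool.Agent.J4.H37.MC.M4

/-! Many characters with large central value in every large subgroup, and, for almost all primes, in every
coset of every large subgroup: the trade-off between the size of the value and the number of characters. -/

set_option autoImplicit false

namespace Pool.Agent.Results.MP_3e6494_nt.ManyCharacters

/-- **Many large central values in subgroups and in cosets.** -/
theorem result :
    (∀ β : ℝ, 1 / 2 < β → β ≤ 1 → ∀ c : ℝ, 0 < c → ∀ θ : ℝ, 0 < θ → θ ≤ 1 → ∀ ε : ℝ, 0 < ε →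
      ∃ q₀ : ℕ, ∀ (q : ℕ) [NeZero q], q₀ ≤ q → q.Prime →
        ∀ H : Subgroup (DirichletCharacter ℂ q), c * (q : ℝ) ^ β ≤ (Nat.card H : ℝ) →
          (q : ℝ) ^ ((2 * β - 1) * (1 - θ) - ε) ≤
            ({χ : DirichletCharacter ℂ q | χ ∈ H ∧ Real.exp ((Real.sqrt ((2 * β - 1) * θ) - ε) *
              Real.sqrt (Real.log q * Real.log (Real.log (Real.log q)) / Real.log (Real.log q))) ≤
                ‖DirichletCharacter.LFunction χ (1 / 2)‖}.ncard : ℝ)) ∧
    (∀ β : ℝ, 2 / 3 < β → β ≤ 1 → ∀ c : ℝ, 0 < c → ∀ θ : ℝ, 0 < θ → θ ≤ 1 → ∀ ε : ℝ, 0 < ε →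
      ∃ η : ℝ, 0 < η ∧ ∃ Q₀ : ℕ, ∀ Q : ℕ, Q₀ ≤ Q →
        ∃ Bad : Finset ℕ, (Bad.card : ℝ) ≤ (Q : ℝ) ^ (1 - η) ∧
          ∀ (q : ℕ) [NeZero q], q.Prime → q ≤ Q → q ∉ Bad →
            ∀ (H : Subgroup (DirichletCharacter ℂ q)) (χ₀ : DirichletCharacter ℂ q),
              c * (q : ℝ) ^ β ≤ (Nat.card H : ℝ) →
              (q : ℝ) ^ ((2 * β - 1) - (3 * β - 2) * θ - ε) ≤
                ({ψ : DirichletCharacter ℂ q | ψ ∈ H ∧ Real.exp ((Real.sqrt ((3 * β - 2) * θ) - ε) *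
                  Real.sqrt (Real.log q * Real.log (Real.log (Real.log q)) / Real.log (Real.log q))) ≤
                    ‖DirichletCharacter.LFunction (χ₀ * ψ) (1 / 2)‖}.ncard : ℝ)) :=
  ⟨Pool.Agent.J4.H37.MC.part1, Pool.Agent.J4.H37.MC.part2⟩

end Pool.Agent.Results.MP_3e6494_nt.ManyCharacters
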