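import Pool.Agent.N918.MS.Cnt
import Pool.Agent.J4.H57.RS.Pow
import Pool.Agent.Results.MP_3e6494_nt.AlmostAllPrimes

/-!
# Large central values in every coset for random primes, and for the primes in random and metric sequences

Say that the prime `q` is good for `(β, c, ε)` if every coset of every subgroup with at least `c q ^ β` elements of the group of
the Dirichlet characters modulo `q` contains a character with a large central value,
`|L(χ, 1/2)| ≥ exp ((√(3 β - 2) - ε) √(log q logloglog q / loglog q))`.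

* For all `2 / 3 < β ≤ 1` and `c, ε > 0` there is an `η > 0` such that for random natural numbers `X_n`, of ANY dependence, with
  `P (X_n = q) ≤ C q ^ (-γ)` for the primes `q`, where `γ > 1 - η`, almost surely for all but finitely many `n` the number `X_n`
  is not a prime or good for `(β, c, ε)`, if `X_n ≥ M_n` outside of events with a convergent sum of probabilities and
  `∑ M_n ^ (-τ)` converges for some `τ < γ - 1 + η`. For instance the `X_n` can be random members of sets of primes up to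
  `N_n` with at least `N_n ^ γ` members, where `N_n` grows at least like a certain power of `n`.
* For ALL rational `2 / 3 < β ≤ 1`, `c, ε > 0` at once, outside of ONE event (set) of probability (measure) zero: for random
  integers `X_n`, of ANY dependence, with `P (X_n = k) ≤ C / (|k| + 1)`, all the primes among the `|X_n|` with finitely many
  exceptions are good, if `|X_n| ≥ exp (n ^ δ)` outside of events with a convergent sum of probabilities; with at most
  `M / (log M) ^ U` exceptions `n < M`, for all `U`, if `∑_{n < M} P (|X_n| < M ^ δ) ≤ C M ^ (1 - δ)`; the primes `|⌊a_n (α)⌋|`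
  for almost all vectors `α`, the `a_n` being linear forms of norm at least `exp (n ^ δ)`; the primes `|⌊h_n (x)⌋|` for almost
  all `x` in an interval on which `|h_n'| ≥ c |h_n|` and `|h_n| ≥ exp (n ^ δ)`; the primes `|⌊ξ x ^ n⌋|` for almost all `x > 1`;
  and the primes `|⌊a_n α⌋|`, with at most `M / (log M) ^ U` exceptions `n < M`, for almost all real `α`, for ANY sequence of
  real numbers `a_n` with mutual distances at least `δ > 0`, in any order.

Proof: the set of the exceptional primes of the starting theorem `AlmostAllPrimes` has at most `Q ^ (1 - η)` elements up to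
`Q`; `Pool.Agent.J4.H57.RS.rand_power` and the starting theorem `Pool.Agent.N918.MS.randomAndMetric`.
-/

set_option autoImplicit false

namespace Pool.Agent.Results.MP_3e6494_nt.RandomPrimes

open Filter Topology MeasureTheory
open scoped ENNReal
open Pool.Agent.N918.MS (AlmostAlways RandomAndMetric randomAndMetric)

/-- every coset of every subgroup with at least `c q ^ β` elements of the group of the Dirichlet characters modulo `q` has a
member with a large central value (with the constant `√(3 β - 2) - ε`) -/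
def LargeValues (β c ε : ℝ) (q : ℕ) : Prop :=
  ∀ _ : NeZero q, ∀ (H : Subgroup (DirichletCharacter ℂ q)) (χ₀ : DirichletCharacter ℂ q),
    c * (q : ℝ) ^ β ≤ (Nat.card H : ℝ) →
    ∃ ψ ∈ H, Real.exp ((Real.sqrt (3 * β - 2) - ε) *
      Real.sqrt (Real.log q * Real.log (Real.log (Real.log q)) / Real.log (Real.log q))) ≤
        ‖DirichletCharacter.LFunction (χ₀ * ψ) (1 / 2)‖

/-- rational numbers `β`, `c`, `ε` with `2 / 3 < β ≤ 1` and `c, ε > 0` -/
def Index : Type := {p : ℚ × ℚ × ℚ // 2 / 3 < p.1 ∧ p.1 ≤ 1 ∧ 0 < p.2.1 ∧ 0 < p.2.2}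

instance : Countable Index :=
  inferInstanceAs (Countable {p : ℚ × ℚ × ℚ // 2 / 3 < p.1 ∧ p.1 ≤ 1 ∧ 0 < p.2.1 ∧ 0 < p.2.2})

/-- if `|k|` is a prime then it is good -/
def GoodIfPrime (p : Index) (k : ℤ) : Prop := k.natAbs.Prime → LargeValues p.1.1 p.1.2.1 p.1.2.2 k.natAbs

/-- the exceptional primes -/
lemma count {β : ℝ} (hβ : 2 / 3 < β) (hβ1 : β ≤ 1) {c : ℝ} (hc : 0 < c) {ε : ℝ} (hε : 0 < ε) :
    ∃ η : ℝ, 0 < η ∧ η ≤ 1 ∧ ∃ C : ℝ, 0 ≤ C ∧ ∀ X : ℝ, 1 ≤ X →
      {q : ℕ | (q.Prime ∧ ¬ LargeValues β c ε q) ∧ (q : ℝ) ≤ X}.Finite ∧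
      ({q : ℕ | (q.Prime ∧ ¬ LargeValues β c ε q) ∧ (q : ℝ) ≤ X}.ncard : ℝ) ≤ C * X ^ (1 - η) := by
  obtain ⟨η, hη, Q₀, hQ⟩ := AlmostAllPrimes.result β hβ hβ1 c hc ε hε
  refine ⟨min η 1, lt_min hη one_pos, min_le_right _ _, (Q₀ : ℝ) + 1, by positivity, fun X hX => ?_⟩
  have hfin : {q : ℕ | (q.Prime ∧ ¬ LargeValues β c ε q) ∧ (q : ℝ) ≤ X}.Finite := by
    apply (Set.finite_Iic ⌊X⌋₊).subset
    rintro q ⟨-, h⟩
    exact Nat.le_floor h
  refine ⟨hfin, ?_⟩
  have hX0 : 0 < X := by linarith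
  have hp1 : 1 ≤ X ^ (1 - min η 1) := Real.one_le_rpow hX (by
    have := min_le_right η 1
    linarith)
  rcases Nat.lt_or_ge ⌊X⌋₊ Q₀ with hlt | hge
  · have hsub : {q : ℕ | (q.Prime ∧ ¬ LargeValues β c ε q) ∧ (q : ℝ) ≤ X} ⊆ Set.Icc 1 ⌊X⌋₊ := by
      rintro q ⟨⟨h1, -⟩, h2⟩
      exact ⟨h1.one_lt.le, Nat.le_floor h2⟩
    have h3 := Set.ncard_le_ncard hsub (Set.finite_Icc 1 ⌊X⌋₊)
    rw [Set.ncard_eq_toFinset_card' (Set.Icc 1 ⌊X⌋₊)] at h3
    simp only [Set.toFinset_Icc, Nat.card_Icc, add_tsub_cancel_right] at h3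
    have h4 : ({q : ℕ | (q.Prime ∧ ¬ LargeValues β c ε q) ∧ (q : ℝ) ≤ X}.ncard : ℝ) ≤ Q₀ := by
      exact_mod_cast h3.trans hlt.le
    calc _ ≤ (Q₀ : ℝ) := h4
      _ ≤ ((Q₀ : ℝ) + 1) * 1 := by linarith
      _ ≤ _ := mul_le_mul_of_nonneg_left hp1 (by positivity)
  · obtain ⟨Bad, hB1, hB2⟩ := hQ ⌊X⌋₊ hge
    have hsub2 : {q : ℕ | (q.Prime ∧ ¬ LargeValues β c ε q) ∧ (q : ℝ) ≤ X} ⊆ (Bad : Set ℕ) := by
      rintro q ⟨⟨h3, h4⟩, h5⟩
      by_contra hcon
      exact h4 fun hne H χ₀ hH => @hB2 q hne h3 (Nat.le_floor h5) hcon H χ₀ hH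
    have h3 := Set.ncard_le_ncard hsub2 (Finset.finite_toSet _)
    rw [Set.ncard_coe_finset] at h3
    have hf1 : (1 : ℝ) ≤ (⌊X⌋₊ : ℝ) := by
      have : 1 ≤ ⌊X⌋₊ := Nat.le_floor (by exact_mod_cast hX)
      exact_mod_cast this
    calc _ ≤ (Bad.card : ℝ) := by exact_mod_cast h3
      _ ≤ (⌊X⌋₊ : ℝ) ^ (1 - η) := hB1
      _ ≤ (⌊X⌋₊ : ℝ) ^ (1 - min η 1) := Real.rpow_le_rpow_of_exponent_le hf1 (by
          have := min_le_left η 1
          linarith)
      _ ≤ X ^ (1 - min η 1) := Real.rpow_le_rpow (by linarith) (Nat.floor_le hX0.le) (by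
          have := min_le_right η 1
          linarith)
      _ = 1 * X ^ (1 - min η 1) := (one_mul _).symm
      _ ≤ _ := mul_le_mul_of_nonneg_right (by
          have : (0 : ℝ) ≤ Q₀ := Nat.cast_nonneg _
          linarith) (by linarith)

lemma power_log {s : ℝ} (hs : s < 1) (C : ℝ) (U : ℕ) : ∀ᶠ X : ℝ in atTop, C * X ^ s ≤ X / Real.log X ^ U := by
  have h1 : (fun x : ℝ => Real.log x ^ (U : ℝ)) =o[atTop] fun x => x ^ (1 - s) :=
    isLittleO_log_rpow_rpow_atTop _ (by linarith)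
  have hC : 0 < 1 / (|C| + 1) := by positivity
  filter_upwards [h1.bound hC, eventually_gt_atTop 1] with X hX hX1
  have hl : 0 < Real.log X := Real.log_pos hX1
  have hX0 : 0 < X := by linarith
  rw [Real.norm_of_nonneg (by positivity), Real.norm_of_nonneg (by positivity), Real.rpow_natCast] at hX
  rw [le_div_iff₀ (by positivity)]
  have e : X ^ s * X ^ (1 - s) = X := by rw [← Real.rpow_add hX0]; simp
  have h2 : C ≤ |C| + 1 := by linarith [le_abs_self C]
  have h3 : 0 ≤ X ^ s := by positivity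
  calc C * X ^ s * Real.log X ^ U ≤ (|C| + 1) * X ^ s * (1 / (|C| + 1) * X ^ (1 - s)) := by
        apply mul_le_mul (mul_le_mul_of_nonneg_right h2 h3) hX (by positivity) (by positivity)
    _ = X ^ s * X ^ (1 - s) := by field_simp
    _ = X := e

lemma almost (p : Index) : AlmostAlways (GoodIfPrime p) := by
  obtain ⟨⟨β, c, ε⟩, h1, h2, h3, h4⟩ := p
  simp only at h1 h2 h3 h4
  have h1' : (2 : ℝ) / 3 < β := by
    have : ((2 / 3 : ℚ) : ℝ) < β := by exact_mod_cast h1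
    push_cast at this
    exact this
  have h2' : (β : ℝ) ≤ 1 := by exact_mod_cast h2
  have h3' : (0 : ℝ) < c := by exact_mod_cast h3
  have h4' : (0 : ℝ) < ε := by exact_mod_cast h4
  obtain ⟨η, hη, hη1, C, hC0, hC⟩ := count h1' h2' h3' h4'
  intro U
  obtain ⟨X₀, hX₀⟩ := eventually_atTop.1 (((tendsto_natCast_atTop_atTop (R := ℝ)).eventually
    (power_log (show 1 - η < 1 by linarith) (2 * C) U)).and (eventually_ge_atTop 1))
  refine ⟨X₀, fun X hX => ?_⟩
  obtain ⟨e1, e2⟩ := hX₀ X hX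
  refine le_trans ?_ e1
  obtain ⟨hfin, hcard⟩ := hC X (by exact_mod_cast e2)
  set S : Set ℕ := {q : ℕ | (q.Prime ∧ ¬ LargeValues β c ε q) ∧ (q : ℝ) ≤ X} with hS
  have hsub : {k : ℤ | k ∈ Set.Icc (-(X : ℤ)) X ∧ ¬ GoodIfPrime ⟨(β, c, ε), h1, h2, h3, h4⟩ k} ⊆
      ((fun m : ℕ => (m : ℤ)) '' S) ∪ ((fun m : ℕ => -(m : ℤ)) '' S) := by
    rintro k ⟨⟨hk1, hk2⟩, hk3⟩
    unfold GoodIfPrime at hk3
    push Not at hk3
    obtain ⟨hk3, hk4⟩ := hk3
    have hmem : k.natAbs ∈ S := by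
      refine ⟨⟨hk3, hk4⟩, ?_⟩
      have : k.natAbs ≤ X := by omega
      exact_mod_cast this
    rcases le_or_gt 0 k with h | h
    · exact Or.inl ⟨k.natAbs, hmem, by simp only; omega⟩
    · exact Or.inr ⟨k.natAbs, hmem, by simp only; omega⟩
  have h5 := Set.ncard_le_ncard hsub ((hfin.image _).union (hfin.image _))
  have h6 := h5.trans ((Set.ncard_union_le _ _).trans (add_le_add (Set.ncard_image_le hfin) (Set.ncard_image_le hfin)))
  calc _ ≤ (S.ncard : ℝ) + S.ncard := by exact_mod_cast h6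
    _ ≤ 2 * C * (X : ℝ) ^ (1 - η) := by linarith

/-- **Large central values in every coset for random primes and for the primes in random and metric sequences.** -/
theorem result :
    (∀ β : ℝ, 2 / 3 < β → β ≤ 1 → ∀ c : ℝ, 0 < c → ∀ ε : ℝ, 0 < ε → ∃ η : ℝ, 0 < η ∧ η ≤ 1 ∧
      ∀ γ τ : ℝ, 0 ≤ γ → 0 ≤ τ → τ < γ - 1 + η →
      ∀ (Ω : Type) [MeasurableSpace Ω] (μ : Measure Ω) (X : ℕ → Ω → ℕ) (C : ℝ) (M : ℕ → ℝ), (∀ n, 1 ≤ M n) →
        (Summable fun n => (M n) ^ (-τ)) →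
        (∀ n q : ℕ, q.Prime → μ {ω | X n ω = q} ≤ ENNReal.ofReal (C * (q : ℝ) ^ (-γ))) →
        ∑' n, μ {ω | (X n ω : ℝ) < M n} ≠ ∞ →
        ∀ᵐ ω ∂μ, ∀ᶠ n in atTop, (X n ω).Prime → LargeValues β c ε (X n ω)) ∧
    RandomAndMetric GoodIfPrime := by
  refine ⟨fun β hβ hβ1 c hc ε hε => ?_, randomAndMetric _ almost⟩
  obtain ⟨η, hη, hη1, C, hC0, hC⟩ := count hβ hβ1 hc hε
  refine ⟨η, hη, hη1, fun γ τ hγ hτ0 hτ Ω _ μ X C' M hM hMs hX hsmall => ?_⟩
  have hcount : ∀ ε' : ℝ, 0 < ε' → ∃ C : ℝ, ∀ X : ℝ, 1 ≤ X →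
      {q : ℕ | q ∈ {q : ℕ | q.Prime ∧ ¬ LargeValues β c ε q} ∧ (q : ℝ) ≤ X}.Finite ∧
      ({q : ℕ | q ∈ {q : ℕ | q.Prime ∧ ¬ LargeValues β c ε q} ∧ (q : ℝ) ≤ X}.ncard : ℝ) ≤ C * X ^ (1 - η + ε') := by
    refine fun ε' hε' => ⟨C, fun X hX => ⟨(hC X hX).1, (hC X hX).2.trans ?_⟩⟩
    exact mul_le_mul_of_nonneg_left (Real.rpow_le_rpow_of_exponent_le hX (by linarith)) hC0
  have h := Pool.Agent.J4.H57.RS.rand_power {q : ℕ | q.Prime ∧ ¬ LargeValues β c ε q} (fun n : ℕ => (n : ℝ))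
    (s := 1 - η) hγ hτ0 (by linarith) hcount μ X C' M hM hMs (fun n q hq _ => hX n q hq.1) hsmall
  filter_upwards [h] with ω hω
  filter_upwards [hω] with n hn h1
  by_contra hcon
  exact hn ⟨h1, hcon⟩

end Pool.Agent.Results.MP_3e6494_nt.RandomPrimes
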