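import Pool.Agent.J4.H80.CV.E

/-!
# Large central values in every subgroup of characters of size at least `c q ^ β`, `β > 5/11`

The result `LargeSubgroups` needs `β > 1/2`: then the annihilator `K` of the group `H` of characters
has less than `√q` elements, and the error in `ζ(1/2, a/q) = (a/q)^(-1/2) + O(1)`, summed over a coset of
`K`, is less than the main term. Here the cancellation in the sum of `ζ(1/2, a/q)` over a coset of
`K` is used, too: the bounds of Heath-Brown and Konyagin for the exponential sums over `K`,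
`q^(1/4) #K^(3/8)` and `q^(1/8) #K^(5/8)`, show that the sum over the coset is at least
`∑ a^(-1/2) - O(q^(-δ))`, where the sum extends over the small members `a ≤ Y` of the coset,
with a power saving as long as `#K ≤ q^(6/11 - ε)`.
-/

set_option autoImplicit false

namespace Pool.Agent.Results.MP_3e6494_nt.SubgroupsBelowSquareRoot

open Filter Topology Pool.Agent.R311.RES Pool.Agent.J4.H80.CV

/-- **Large central values in subgroups of order below `√q`.** Let `5/11 < β < 2/3`, `c > 0`, `ε > 0`. For every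
large prime `q` and every group `H` of at least `c q ^ β` Dirichlet characters modulo `q` there is a
character `χ` in `H` with `|L(χ, 1/2)| ≥ exp ((√ρ - ε) √(log q logloglog q / loglog q))`, where
`ρ = (11 β - 5) / 8` for `β ≤ 1/2` and `ρ = (13 β - 6) / 8` for `β ≥ 1/2` (the maximum of the two). For
`1/2 < β < 2/3` this constant is larger than `√(2 β - 1)`. -/
theorem result : ∀ β : ℝ, 5 / 11 < β → β < 2 / 3 → ∀ c : ℝ, 0 < c → ∀ ε : ℝ, 0 < ε →
    ∃ q₀ : ℕ, ∀ (q : ℕ) [NeZero q], q₀ ≤ q → q.Prime →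
      ∀ H : Subgroup (DirichletCharacter ℂ q), c * (q : ℝ) ^ β ≤ (Nat.card H : ℝ) →
        ∃ χ ∈ H, Real.exp ((Real.sqrt (max ((11 * β - 5) / 8) ((13 * β - 6) / 8)) - ε) *
          Real.sqrt (Real.log q * Real.log (Real.log (Real.log q)) / Real.log (Real.log q))) ≤
            ‖DirichletCharacter.LFunction χ (1 / 2)‖ := by
  intro β hβ hβ1 c hc ε hε
  set a : ℝ := rho β with ha
  have haeq : max ((11 * β - 5) / 8) ((13 * β - 6) / 8) = a := rfl
  rw [haeq]
  have ha0 : 0 < a := lt_of_lt_of_le (by linarith) (le_max_left ((11 * β - 5) / 8) _)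
  have ha1 : a ≤ 1 / 3 := max_le (by linarith) (by linarith)
  have hsa : 0 < Real.sqrt a := Real.sqrt_pos.2 ha0
  set ε₁ : ℝ := min ε (Real.sqrt a) with hε₁
  have hε₁0 : 0 < ε₁ := lt_min hε hsa
  have hε₁ε : ε₁ ≤ ε := min_le_left _ _
  have hε₁a : ε₁ ≤ Real.sqrt a := min_le_right _ _
  set η : ℝ := min (a / 4) ((ε₁ / 4) ^ 2 / 2) with hη
  have hη0 : 0 < η := lt_min (by positivity) (by positivity)
  have hηa : η ≤ a / 4 := min_le_left _ _
  have hηε : η ≤ (ε₁ / 4) ^ 2 / 2 := min_le_right _ _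
  set δ : ℝ := a / 2 - η with hδ
  have hδ0 : 0 < δ := by linarith
  have hsd : Real.sqrt a - ε₁ / 4 ≤ Real.sqrt (2 * δ) := by
    have h1 : Real.sqrt a ≤ Real.sqrt (2 * δ) + Real.sqrt (2 * η) := by
      rw [Real.sqrt_le_left (by positivity)]
      have h2 := Real.sq_sqrt (show 0 ≤ 2 * δ by positivity)
      have h3 := Real.sq_sqrt (show 0 ≤ 2 * η by positivity)
      have h4 : 0 ≤ Real.sqrt (2 * δ) * Real.sqrt (2 * η) := by positivity
      nlinarith
    have h5 : Real.sqrt (2 * η) ≤ ε₁ / 4 := by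
      rw [Real.sqrt_le_left (by positivity)]
      linarith
    linarith
  have hsd1 : Real.sqrt (2 * δ) ≤ 1 := by
    rw [Real.sqrt_le_left (by norm_num)]
    linarith
  set h : ℝ := min (1 / 100) (ε₁ / 40) with hh
  have hh0 : 0 < h := lt_min (by norm_num) (by positivity)
  have hh1 : h ≤ 1 / 100 := min_le_left _ _
  have hhε : h ≤ ε₁ / 40 := min_le_right _ _
  obtain ⟨X0, hX0⟩ := core' hh0 hh1 hδ0 (8 / ε₁)
  obtain ⟨q₁, hq₁⟩ := low_final β c (η / 3) hβ hβ1 hc (by positivity) (by linarith)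
  have t1 : Tendsto (fun q : ℕ => Real.log (q : ℝ)) atTop atTop :=
    Real.tendsto_log_atTop.comp tendsto_natCast_atTop_atTop
  obtain ⟨q₀, hq₀⟩ := eventually_atTop.1 (t1.eventually_ge_atTop X0)
  refine ⟨max q₀ q₁, fun q _ hqq hq H hH => ?_⟩
  have : Fact q.Prime := ⟨hq⟩
  obtain ⟨d1, d2⟩ := hX0 q (hq₀ q ((le_max_left _ _).trans hqq))
  obtain ⟨Y, Err, e1, e2, e3, e4, e5⟩ := hq₁ q ((le_max_right _ _).trans hqq) H hH
  have hδ' : rho β / 2 - 3 * (η / 3) = δ := by
    rw [hδ, ha]
    ring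
  rw [hδ'] at e4
  set F : ℝ := FF (Real.log q) with hF
  have hFdef : Real.sqrt (Real.log q * Real.log (Real.log (Real.log q)) / Real.log (Real.log q)) = F :=
    rfl
  rw [hFdef]
  have hF0 : 0 < F := lt_of_lt_of_le (by positivity) d1
  by_contra hcon
  push Not at hcon
  have hV : ∀ χ ∈ H, ‖DirichletCharacter.LFunction χ (1 / 2)‖ ≤ Real.exp ((Real.sqrt a - ε₁) * F) := by
    intro χ hχ
    refine (hcon χ hχ).le.trans ?_
    rw [Real.exp_le_exp]
    apply mul_le_mul_of_nonneg_right _ hF0.le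
    linarith
  have h1 := d2 H Y Err e1 e2 e3 e4 e5 _ hV
  have h2 : Real.exp ((Real.sqrt a - ε₁ / 2) * F) ≤ Real.exp ((Real.sqrt a - ε₁) * F) + 3 := by
    refine le_trans ?_ h1
    rw [Real.exp_le_exp]
    apply mul_le_mul_of_nonneg_right _ hF0.le
    nlinarith [Real.sqrt_nonneg (2 * δ)]
  have h3 : Real.exp ((Real.sqrt a - ε₁ / 2) * F) =
      Real.exp ((Real.sqrt a - ε₁) * F) * Real.exp (ε₁ / 2 * F) := by
    rw [← Real.exp_add]; congr 1; ring
  have h4 := Real.add_one_le_exp (ε₁ / 2 * F)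
  have h5 : 1 ≤ Real.exp ((Real.sqrt a - ε₁) * F) := by
    apply Real.one_le_exp
    apply mul_nonneg (by linarith) hF0.le
  have h6 : 8 ≤ ε₁ * F := by
    rw [div_le_iff₀ hε₁0] at d1
    linarith
  rw [h3] at h2
  nlinarith

end Pool.Agent.Results.MP_3e6494_nt.SubgroupsBelowSquareRoot
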